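import Pool.Agent.Helper51.PP.Spec

/-!
# Swarm PC, part GEO2: shifts and gaps
-/

set_option autoImplicit false

namespace Pool.Agent.Helper33.PC.GEO2

open Pool.Agent.Helper51.PP

theorem dirVec_rev {d : ℕ} (e : Fin d × Bool) : dirVec (revD e) = -dirVec e := by
  rcases e with ⟨i, b⟩
  cases b <;> simp [dirVec, revD]

theorem revD_revD {d : ℕ} (e : Fin d × Bool) : revD (revD e) = e := by
  rcases e with ⟨i, b⟩
  cases b <;> rfl

theorem gap_spec {d : ℕ} {ω : Conf d} (hω : Good ω) (v : Fin d → ℤ) (e : Fin d × Bool) :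
    1 ≤ gap ω v e ∧ ω (v + (gap ω v e : ℤ) • dirVec e) = true :=
  Nat.sInf_mem (s := {k : ℕ | 1 ≤ k ∧ ω (v + (k : ℤ) • dirVec e) = true}) (hω v e)

theorem gap_min {d : ℕ} (ω : Conf d) (v : Fin d → ℤ) (e : Fin d × Bool) (k : ℕ) (h1 : 1 ≤ k)
    (h2 : ω (v + (k : ℤ) • dirVec e) = true) : gap ω v e ≤ k :=
  Nat.sInf_le (s := {k : ℕ | 1 ≤ k ∧ ω (v + (k : ℤ) • dirVec e) = true}) ⟨h1, h2⟩

/-- the gap back -/
theorem gap_back {d : ℕ} {ω : Conf d} (hω : Good ω) (v : Fin d → ℤ) (hv : ω v = true)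
    (e : Fin d × Bool) : gap ω (nextPt ω v e) (revD e) = gap ω v e := by
  obtain ⟨h1, h2⟩ := gap_spec hω v e
  obtain ⟨h3, h4⟩ := gap_spec hω (nextPt ω v e) (revD e)
  apply le_antisymm
  · apply gap_min _ _ _ _ h1
    rw [dirVec_rev]
    unfold nextPt
    rw [smul_neg, add_neg_cancel_right]
    exact hv
  · by_contra hlt
    push Not at hlt
    have h5 : gap ω v e ≤ gap ω v e - gap ω (nextPt ω v e) (revD e) := by
      apply gap_min _ _ _ _ (by omega)
      rw [dirVec_rev] at h4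
      rw [Nat.cast_sub hlt.le, sub_smul]
      unfold nextPt at h4 ⊢
      convert h4 using 2
      rw [smul_neg]
      abel
    omega

theorem nextPt_back {d : ℕ} {ω : Conf d} (hω : Good ω) (v : Fin d → ℤ) (hv : ω v = true)
    (e : Fin d × Bool) : nextPt ω (nextPt ω v e) (revD e) = v := by
  have h := gap_back hω v hv e
  conv_lhs => unfold nextPt
  rw [show gap ω (v + (gap ω v e : ℤ) • dirVec e) (revD e) = gap ω v e from h, dirVec_rev,
    smul_neg, add_neg_cancel_right]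

theorem gap_shift {d : ℕ} (ω : Conf d) (v : Fin d → ℤ) (e : Fin d × Bool) :
    gap (shiftConf v ω) 0 e = gap ω v e := by
  unfold gap shiftConf
  simp only [zero_add]

theorem shift_shift {d : ℕ} (ω : Conf d) (v w : Fin d → ℤ) :
    shiftConf w (shiftConf v ω) = shiftConf (v + w) ω := by
  funext y
  simp only [shiftConf, add_assoc]

theorem Tm_shift {d : ℕ} (ω : Conf d) (v : Fin d → ℤ) (e : Fin d × Bool) :
    Tm (shiftConf v ω) e = shiftConf (nextPt ω v e) ω := by
  unfold Tm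
  rw [gap_shift, shift_shift]
  rfl

theorem Tm_eq {d : ℕ} (ω : Conf d) (e : Fin d × Bool) :
    Tm ω e = shiftConf (nextPt ω 0 e) ω := by
  unfold Tm nextPt
  rw [zero_add]

theorem shift_zero {d : ℕ} (ω : Conf d) : shiftConf 0 ω = ω := by
  funext y
  simp only [shiftConf, zero_add]

theorem main : S_GEO2 := by
  intro d ω hω
  refine ⟨?_, gap_shift ω, Tm_shift ω, Tm_eq ω, ?_⟩
  · intro v w e
    obtain ⟨k, h1, h2⟩ := hω (v + w) e
    refine ⟨k, h1, ?_⟩
    unfold shiftConf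
    rw [← add_assoc]
    exact h2
  · intro h0 e
    constructor
    · rw [Tm_eq ω e, Tm_shift, nextPt_back hω 0 h0, shift_zero]
    · rw [Tm_eq ω e, gap_shift, gap_back hω 0 h0]

end Pool.Agent.Helper33.PC.GEO2
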