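import Pool.Agent.Helper51.PP.Spec

/-!
# Swarm PC, part LNK: the walk on the configuration and the environment seen from the walk
-/

set_option autoImplicit false

namespace Pool.Agent.Helper33.PC.LNK

open Pool.Agent.Helper51.PP

theorem main (h : S_GEO2) : S_LNK := by
  intro d ω hω n
  induction n with
  | zero =>
    intro v
    exact ⟨fun g => rfl, fun F => rfl⟩
  | succ n ih =>
    intro v
    obtain ⟨_, _, h3, _, _⟩ := h d ω hω
    constructor
    · intro g
      simp only [PRn, PR]
      congr 1
      refine Finset.sum_congr rfl fun e _ => ?_
      rw [h3]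
      exact (ih (nxO ω hω v e)).1 g
    · intro F
      simp only [EV]
      congr 1
      refine Finset.sum_congr rfl fun e _ => ?_
      exact (ih (nxO ω hω v e)).2 F

end Pool.Agent.Helper33.PC.LNK
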